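import Pool.Agent.Helper1.TE.Goals3
import Pool.Agent.Helper53.TE.LCT
import Pool.Agent.Helper27.TE.LSD

/-!
Project TE (MP_8b4d68_lc), packet LBG: the step functions are linear space functions.
-/

set_option autoImplicit false

namespace Pool.Agent.Helper90.TE

open Pool.Agent.Helper1.TE
open Pool.Agent.Helper65.LinSpace (dig tab nrec ifz eq01 le01 lt01 capPow Ctx LS)

section

variable {γ : Type} [Ctx γ]

theorem ls_getC (hcf : GoalLCF) {C : γ → C3} {i : γ → ℕ} (hC : LS C) (hi : LS i) :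
    LS (fun a => getC (C a) (i a)) := by
  have h1 : LS (fun a => (C a).1) := LS.comp LS.fst hC
  have h2 : LS (fun a => (C a).2) := LS.comp LS.snd hC
  have h3 : LS (fun a => (C a).2.1) := LS.comp LS.fst h2
  have h4 : LS (fun a => (C a).2.2) := LS.comp LS.snd h2
  have h5 : LS (fun a => cif (i a - 1) (C a).2.1 (C a).2.2) := hcf _ _ _ (by fun_prop) h3 h4
  exact hcf _ _ _ hi h1 h5

theorem ls_setC (hcf : GoalLCF) {C : γ → C3} {i : γ → ℕ} {z : γ → ℕ × ℕ} (hC : LS C) (hi : LS i)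
    (hz : LS z) : LS (fun a => setC (C a) (i a) (z a)) := by
  have h1 : LS (fun a => (C a).1) := LS.comp LS.fst hC
  have h2 : LS (fun a => (C a).2) := LS.comp LS.snd hC
  have h3 : LS (fun a => (C a).2.1) := LS.comp LS.fst h2
  have h4 : LS (fun a => (C a).2.2) := LS.comp LS.snd h2
  have h5 : LS (fun a => ((C a).1, z a, (C a).2.2)) := LS.prodMk h1 (LS.prodMk hz h4)
  have h6 : LS (fun a => ((C a).1, (C a).2.1, z a)) := LS.prodMk h1 (LS.prodMk h3 hz)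
  have h7 : LS (fun a => (z a, (C a).2)) := LS.prodMk hz h2
  have h8 : LS (fun a => cif (i a - 1) ((C a).1, z a, (C a).2.2) ((C a).1, (C a).2.1, z a)) :=
    hcf _ _ _ (by fun_prop) h5 h6
  exact hcf _ _ _ hi h7 h8

end

section

/-- the rules of the numeric gadget. -/
structure Rules : Prop where
  cf : GoalLCF
  RP : LS (fun x : ℕ × ℕ => RP x.1 x.2)
  lvl : LS (fun x : ℕ × ℕ => lvl x.1 x.2)
  tgN : LS (fun x : ℕ × ℕ × ℕ => tgN x.1 x.2.1 x.2.2)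
  trN : LS (fun x : ℕ × ℕ × ℕ => trN x.1 x.2.1 x.2.2)
  kindN : LS (fun x : ℕ × ℕ => kindN x.1 x.2)
  PM : LS (fun x : ℕ × ℕ × ℕ => PM x.1 x.2.1 x.2.2)
  GM : LS (fun x : ℕ × ℕ × ℕ => GM x.1 x.2.1 x.2.2)
  wM : LS (fun x : (ℕ × ℕ × ℕ) × ℕ × ℕ => wM x.1.1 x.1.2.1 x.1.2.2 x.2.1 x.2.2)
  shM : LS (fun x : (ℕ × ℕ × ℕ) × ℕ × ℕ => shM x.1.1 x.1.2.1 x.1.2.2 x.2.1 x.2.2)
  ushM : LS (fun x : (ℕ × ℕ × ℕ) × ℕ × ℕ => ushM x.1.1 x.1.2.1 x.1.2.2 x.2.1 x.2.2)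
  addM : LS (fun x : (ℕ × ℕ × ℕ) × ℕ × ℕ => addM x.1.1 x.1.2.1 x.1.2.2 x.2.1 x.2.2)

theorem comp2 {γ : Type} [Ctx γ] {F : ℕ → ℕ → ℕ} (hF : LS (fun x : ℕ × ℕ => F x.1 x.2))
    {f g : γ → ℕ} (hf : LS f) (hg : LS g) : LS (fun a => F (f a) (g a)) :=
  LS.comp (g := fun x : ℕ × ℕ => F x.1 x.2) (f := fun a => (f a, g a)) hF (LS.prodMk hf hg)

theorem comp3 {γ : Type} [Ctx γ] {F : ℕ → ℕ → ℕ → ℕ}
    (hF : LS (fun x : ℕ × ℕ × ℕ => F x.1 x.2.1 x.2.2))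
    {f g k : γ → ℕ} (hf : LS f) (hg : LS g) (hk : LS k) : LS (fun a => F (f a) (g a) (k a)) :=
  LS.comp (g := fun x : ℕ × ℕ × ℕ => F x.1 x.2.1 x.2.2) (f := fun a => (f a, g a, k a)) hF
    (LS.prodMk hf (LS.prodMk hg hk))

theorem comp5 {γ : Type} [Ctx γ] {F : ℕ → ℕ → ℕ → ℕ → ℕ → ℕ}
    (hF : LS (fun x : (ℕ × ℕ × ℕ) × ℕ × ℕ => F x.1.1 x.1.2.1 x.1.2.2 x.2.1 x.2.2))
    {f g k l m : γ → ℕ} (hf : LS f) (hg : LS g) (hk : LS k) (hl : LS l) (hm : LS m) :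
    LS (fun a => F (f a) (g a) (k a) (l a) (m a)) :=
  LS.comp (g := fun x : (ℕ × ℕ × ℕ) × ℕ × ℕ => F x.1.1 x.1.2.1 x.1.2.2 x.2.1 x.2.2)
    (f := fun a => ((f a, g a, k a), l a, m a)) hF
    (LS.prodMk (LS.prodMk hf (LS.prodMk hg hk)) (LS.prodMk hl hm))

end

section

variable {γ : Type} [Ctx γ] (R : Rules) {h b W v : γ → ℕ} {z : γ → ℕ × ℕ} (hh : LS h) (hb : LS b)
  (hW : LS W) (hv : LS v) (hz : LS z)

include R hh hb hW hv hz

theorem ls_hdM : LS (fun a => hdM (h a) (b a) (W a) (v a) (z a)) := by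
  have z1 : LS (fun a => (z a).1) := LS.comp LS.fst hz
  have z2 : LS (fun a => (z a).2) := LS.comp LS.snd hz
  have r := comp2 (F := RP) R.RP hh hb
  have w := comp5 (F := wM) R.wM hh hb hW hv z1
  have gm := comp3 (F := GM) R.GM hh hb hW
  have q : LS (fun a => wM (h a) (b a) (W a) (v a) (z a).1 / RP (h a) (b a)) := LS.div w r
  exact LS.prodMk (comp5 (F := addM) R.addM hh hb hW z1 (LS.mul r q)) (LS.add (LS.mul gm z2) q)

theorem ls_apM {T : γ → ℕ} (hT : LS T) : LS (fun a => apM (h a) (b a) (W a) (T a) (v a) (z a)) := by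
  have z1 : LS (fun a => (z a).1) := LS.comp LS.fst hz
  have z2 : LS (fun a => (z a).2) := LS.comp LS.snd hz
  have r := comp2 (F := RP) R.RP hh hb
  have gm := comp3 (F := GM) R.GM hh hb hW
  have pm := comp3 (F := PM) R.PM hh hb hW
  have u := comp5 (F := ushM) R.ushM hh hb hW hv z1
  have e1 : LS (fun a => PM (h a) (b a) (W a) - RP (h a) (b a) * ((z a).2 % GM (h a) (b a) (W a))) :=
    LS.sub pm (LS.mul r (LS.mod z2 gm))
  have e2 := comp5 (F := addM) R.addM hh hb hW u e1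
  exact R.cf _ _ _ hT hz (R.cf _ _ _ (LS.pred hT) (ls_hdM R hh hb hW hv hz)
    (LS.prodMk e2 (LS.div z2 gm)))

theorem ls_apT {tst : ℕ → ℕ} (ht : LS tst) {T : γ → ℕ} (hT : LS T) :
    LS (fun a => apT (h a) (b a) (W a) tst (T a) (v a) (z a)) := by
  have z1 : LS (fun a => (z a).1) := LS.comp LS.fst hz
  have r := comp2 (F := RP) R.RP hh hb
  have u := comp5 (F := ushM) R.ushM hh hb hW hv z1
  have w := comp5 (F := wM) R.wM hh hb hW hv u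
  exact LS.ifz hT (LS.comp ht hv) (LS.ifz (LS.pred hT) (LS.const 1) (LS.lt01 w r))

end

theorem rules (h1 : GoalLCF) (h2 : GoalLPA) (h3 : GoalLTI) (h4 : GoalLVE) : Rules := by
  obtain ⟨a1, a2, a3, a4, a5⟩ := h3
  obtain ⟨b1, b2, b3, b4, b5, b6⟩ := h4 Pool.Agent.Helper53.TE.gLCT Pool.Agent.Helper27.TE.gLSD h2
  exact ⟨h1, h2.2.2.1, a1, a3, a4, a5, b1, b2, b3, b4, b5, b6⟩

theorem gLBG : GoalLBG := by
  intro h1 h2 h3 h4
  have R := rules h1 h2 h3 h4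
  refine ⟨?_, ?_⟩
  · have hh : LS (fun x : (ℕ × ℕ × ℕ) × ℕ × ℕ × ℕ × C3 => x.1.1) := by fun_prop
    have hb : LS (fun x : (ℕ × ℕ × ℕ) × ℕ × ℕ × ℕ × C3 => x.1.2.1) := by fun_prop
    have hW : LS (fun x : (ℕ × ℕ × ℕ) × ℕ × ℕ × ℕ × C3 => x.1.2.2) := by fun_prop
    have hτ : LS (fun x : (ℕ × ℕ × ℕ) × ℕ × ℕ × ℕ × C3 => x.2.1) := by fun_prop
    have hg : LS (fun x : (ℕ × ℕ × ℕ) × ℕ × ℕ × ℕ × C3 => x.2.2.1) := by fun_prop
    have hv : LS (fun x : (ℕ × ℕ × ℕ) × ℕ × ℕ × ℕ × C3 => x.2.2.2.1) := by fun_prop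
    have hC : LS (fun x : (ℕ × ℕ × ℕ) × ℕ × ℕ × ℕ × C3 => x.2.2.2.2) := by fun_prop
    have hk := comp2 (F := kindN) R.kindN hh hτ
    have hl := comp2 (F := lvl) R.lvl hh hτ
    have hT := comp3 (F := trN) R.trN hh hτ hl
    have ht := comp3 (F := tgN) R.tgN hh hτ hl
    have ht1 := LS.mod (LS.add ht (LS.const 1)) (LS.const 3)
    have ht2 := LS.mod (LS.add ht (LS.const 2)) (LS.const 3)
    have c0 := ls_getC R.cf hC ht
    have c1 := ls_getC R.cf hC ht1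
    have c2 := ls_getC R.cf hC ht2
    have s0 := ls_setC R.cf hC ht (ls_apM R hh hb hW hv c0 hT)
    have ga : LS (fun x : (ℕ × ℕ × ℕ) × ℕ × ℕ × ℕ × C3 => x.2.2.1 / 2 ^ x.1.2.1) :=
      LS.divPow (LS.const 2) hg hb
    have gb : LS (fun x : (ℕ × ℕ × ℕ) × ℕ × ℕ × ℕ × C3 => x.2.2.1 % 2 ^ x.1.2.1) :=
      LS.modPow (LS.const 2) hg hb
    have sa := comp5 (F := shM) R.shM hh hb hW ga (LS.comp LS.fst c1)
    have sb := comp5 (F := shM) R.shM hh hb hW gb (LS.comp LS.fst c2)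
    have s1 := ls_setC R.cf s0 ht1 (LS.prodMk sa (LS.comp LS.snd c1))
    have s2 := ls_setC R.cf s1 ht2 (LS.prodMk sb (LS.comp LS.snd c2))
    exact R.cf _ _ _ hk s0 (R.cf _ _ _ (LS.pred hk) s2 hC)
  · intro tst htst
    have hh : LS (fun x : (ℕ × ℕ × ℕ) × ℕ × ℕ × C3 => x.1.1) := by fun_prop
    have hb : LS (fun x : (ℕ × ℕ × ℕ) × ℕ × ℕ × C3 => x.1.2.1) := by fun_prop
    have hW : LS (fun x : (ℕ × ℕ × ℕ) × ℕ × ℕ × C3 => x.1.2.2) := by fun_prop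
    have hτ : LS (fun x : (ℕ × ℕ × ℕ) × ℕ × ℕ × C3 => x.2.1) := by fun_prop
    have hv : LS (fun x : (ℕ × ℕ × ℕ) × ℕ × ℕ × C3 => x.2.2.1) := by fun_prop
    have hC : LS (fun x : (ℕ × ℕ × ℕ) × ℕ × ℕ × C3 => x.2.2.2) := by fun_prop
    have hk := comp2 (F := kindN) R.kindN hh hτ
    have hl := comp2 (F := lvl) R.lvl hh hτ
    have hT := comp3 (F := trN) R.trN hh hτ hl
    have ht := comp3 (F := tgN) R.tgN hh hτ hl
    have c0 := ls_getC R.cf hC ht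
    exact LS.ifz (LS.pred hk) (ls_apT R hh hb hW hv c0 htst hT) (LS.const 1)

end Pool.Agent.Helper90.TE
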