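import Pool.Agent.Helper1.TE.Goals

/-!
Project TE (MP_8b4d68_lc), packet UNQ: uniqueness in complete chains.
-/

set_option autoImplicit false

namespace Pool.Agent.Helper90.TE

open Pool.Agent.Helper1.TE

section abs

variable {S : Type}

theorem ch_congr {step step' : ℕ → ℕ → ℕ → S → Option S} {K t : ℕ} {x y : S}
    (hc : Ch step K t x y) (h : ∀ τ < t, step τ = step' τ) : Ch step' K t x y := by
  induction hc with
  | zero s => exact Ch.zero s
  | succ a b ha hb hc h' ih =>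
    refine Ch.succ a b ha hb (ih fun τ hτ => h τ (by omega)) ?_
    rw [← h _ (by omega)]; exact h'

theorem ch_zero {step : ℕ → ℕ → ℕ → S → Option S} {K : ℕ} {x y : S}
    (hc : Ch step K 0 x y) : x = y := by
  cases hc; rfl

/-- decomposition of a chain of `k` blocks of length `N`. -/
theorem post (hCHS : GoalCHS) {step : ℕ → ℕ → ℕ → S → Option S}
    {bl : ℕ → ℕ → ℕ → ℕ → S → Option S} {N K : ℕ}
    (hb : ∀ r τ, τ < N → step (r * N + τ) = bl r τ) (s : ℕ) :
    ∀ (k : ℕ) (x y : S), Ch (fun τ => step (s * N + τ)) K (k * N) x y →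
      ∃ Xs : ℕ → S, Xs s = x ∧ Xs (s + k) = y ∧
        ∀ l, s ≤ l → l < s + k → Ch (bl l) K N (Xs l) (Xs (l + 1)) := by
  intro k
  induction k with
  | zero =>
    intro x y h
    rw [Nat.zero_mul] at h
    have := ch_zero h
    exact ⟨fun _ => x, rfl, this, fun l h1 h2 => absurd h2 (by omega)⟩
  | succ k ih =>
    intro x y h
    rw [Nat.succ_mul] at h
    obtain ⟨z, h1, h2⟩ := (hCHS _ _ _ _ _ _).1 h
    obtain ⟨Xs, hs, hz, hl⟩ := ih x z h1
    refine ⟨fun l => if l ≤ s + k then Xs l else y, ?_, ?_, ?_⟩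
    · simp [hs]
    · simp
    · intro l hl1 hl2
      rcases Nat.lt_or_ge l (s + k) with h3 | h3
      · simp only [if_pos (le_of_lt h3), if_pos (show l + 1 ≤ s + k by omega)]
        exact hl l hl1 h3
      · have h4 : l = s + k := by omega
        subst h4
        simp only [le_refl, if_true, if_neg (show ¬ (s + k + 1 ≤ s + k) by omega), hz]
        refine ch_congr h2 fun τ hτ => ?_
        rw [← hb (s + k) τ hτ]
        congr 1
        ring

theorem mid (hCHS : GoalCHS) {step : ℕ → ℕ → ℕ → S → Option S}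
    {bl : ℕ → ℕ → ℕ → ℕ → S → Option S} {N K : ℕ}
    (hb : ∀ r τ, τ < N → step (r * N + τ) = bl r τ) {r t' : ℕ} (hr : r < 5) (ht : t' < N)
    {C D E F : S} {a b : ℕ} (ha : a < K) (hb' : b < K)
    (h1 : Ch step K (r * N + t') C D) (h2 : step (r * N + t') a b D = some E)
    (h3 : Ch (fun τ => step (r * N + t' + 1 + τ)) K (5 * N - (r * N + t' + 1)) E F) :
    ∃ Xs : ℕ → S, Xs 0 = C ∧ (∀ l < 5, Ch (bl l) K N (Xs l) (Xs (l + 1))) ∧
      Ch (bl r) K t' (Xs r) D ∧ bl r t' a b D = some E ∧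
      Ch (fun τ => bl r (t' + 1 + τ)) K (N - (t' + 1)) E (Xs (r + 1)) := by
  obtain ⟨X, hX1, hX2⟩ := (hCHS _ _ _ _ _ _).1 h1
  obtain ⟨X1, hx0, hxr, hx⟩ := post hCHS hb 0 r C X (by
    refine ch_congr hX1 fun τ _ => ?_
    rw [Nat.zero_mul, Nat.zero_add])
  have e1 : 5 * N - (r * N + t' + 1) = (N - (t' + 1)) + (4 - r) * N := by
    have : (4 - r) * N + (r + 1) * N = 5 * N := by
      rw [← Nat.add_mul]; congr 1; omega
    have h4 : (r + 1) * N = r * N + N := Nat.succ_mul r N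
    omega
  rw [e1] at h3
  obtain ⟨Y, hY1, hY2⟩ := (hCHS _ _ _ _ _ _).1 h3
  obtain ⟨X2, hy0, hyr, hy⟩ := post hCHS hb (r + 1) (4 - r) Y F (by
    refine ch_congr hY2 fun τ _ => ?_
    congr 1
    have h4 : (r + 1) * N = r * N + N := Nat.succ_mul r N
    omega)
  rw [Nat.zero_add] at hxr
  have hD : Ch (bl r) K t' X D := ch_congr hX2 fun τ hτ => hb r τ (by omega)
  have hE : bl r t' a b D = some E := by rw [← hb r t' ht]; exact h2
  have hY : Ch (fun τ => bl r (t' + 1 + τ)) K (N - (t' + 1)) E Y :=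
    ch_congr hY1 fun τ hτ => by
      rw [← hb r (t' + 1 + τ) (by omega)]
      congr 1
      omega
  have hXY : Ch (bl r) K N X Y := by
    have e2 : N = (t' + 1) + (N - (t' + 1)) := by omega
    rw [e2]
    exact (hCHS _ _ _ _ _ _).2 ⟨E, Ch.succ a b ha hb' hD hE, hY⟩
  refine ⟨fun l => if l ≤ r then X1 l else X2 l, ?_, ?_, ?_, hE, ?_⟩
  · simp [hx0]
  · intro l hl
    rcases Nat.lt_trichotomy l r with h | h | h
    · simp only [if_pos (le_of_lt h), if_pos (show l + 1 ≤ r by omega)]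
      exact hx l (by omega) (by omega)
    · subst h
      simp only [le_refl, if_true, if_neg (show ¬ (l + 1 ≤ l) by omega), hxr, hy0]
      exact hXY
    · simp only [if_neg (show ¬ (l ≤ r) by omega), if_neg (show ¬ (l + 1 ≤ r) by omega)]
      exact hy l (by omega) (by omega)
  · simp only [le_refl, if_true, hxr]
    exact hD
  · simp only [if_neg (show ¬ (r + 1 ≤ r) by omega), hy0]
    exact hY

end abs

section main

variable {Z : Type} (g : Gad Z) (tst leaf : ℕ → ℕ) (f : ℕ → ℕ → ℕ → ℕ)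

/-- the block number `r` of a visit. -/
def blk (h j T : ℕ) (i : Fin 3) (r : ℕ) : ℕ → ℕ → ℕ → (Fin 3 → Z) → Option (Fin 3 → Z) :=
  if r = 0 then opR g tst leaf f h (2 * j) 1 (i + 1)
  else if r = 1 then opR g tst leaf f h (2 * j + 1) 1 (i + 2)
  else if r = 2 then fun τ a b C => if τ = 0 then guess g tst (f j) T i a b C else some C
  else if r = 3 then opR g tst leaf f h (2 * j) 2 (i + 1)
  else opR g tst leaf f h (2 * j + 1) 2 (i + 2)

theorem opR_blk (h j T : ℕ) (i : Fin 3) (r τ : ℕ) (hτ : τ < 5 ^ h) :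
    opR g tst leaf f (h + 1) j T i (r * 5 ^ h + τ) = blk g tst leaf f h j T i r τ := by
  have h5 : 0 < 5 ^ h := Nat.pos_of_ne_zero (by positivity)
  have h1 : (r * 5 ^ h + τ) / 5 ^ h = r := by
    rw [Nat.add_comm, Nat.add_mul_div_right _ _ h5, Nat.div_eq_of_lt hτ, Nat.zero_add]
  have h2 : (r * 5 ^ h + τ) % 5 ^ h = τ := by
    rw [Nat.add_comm, Nat.add_mul_mod_self_right, Nat.mod_eq_of_lt hτ]
  funext a b C
  rw [opR, h1, h2]
  unfold blk
  split_ifs with k1 k2 k3 k4 k5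
  · rfl
  · rfl
  · simp [k4]
  · simp [k4]
  · rfl
  · rfl

variable {g tst leaf f}

theorem blk2_head {h j T : ℕ} {i : Fin 3} : ∀ {n : ℕ} {X Y : Fin 3 → Z},
    Ch (blk g tst leaf f h j T i 2) g.K (n + 1) X Y →
      ∃ a < g.K, ∃ b < g.K, guess g tst (f j) T i a b X = some Y := by
  intro n
  induction n with
  | zero =>
    intro X Y hc
    cases hc with
    | succ a b ha hb hc h' =>
      have := ch_zero hc
      subst this
      exact ⟨a, ha, b, hb, h'⟩
  | succ n ih =>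
    intro X Y hc
    cases hc with
    | succ a b ha hb hc h' =>
      obtain ⟨a0, ha0, b0, hb0, h0⟩ := ih hc
      have : blk g tst leaf f h j T i 2 (n + 1) a b _ = some _ := h'
      simp only [blk, if_neg (show ¬ (2 = 0) by omega), if_neg (show ¬ (2 = 1) by omega),
        if_true, if_neg (show ¬ (n + 1 = 0) by omega), Option.some.injEq] at this
      subst this
      exact ⟨a0, ha0, b0, hb0, h0⟩

theorem blk2_tail {h j T : ℕ} {i : Fin 3} {s n : ℕ} {X Y : Fin 3 → Z}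
    (hc : Ch (fun τ => blk g tst leaf f h j T i 2 (s + 1 + τ)) g.K n X Y) : X = Y := by
  induction hc with
  | zero s => rfl
  | succ a b ha hb hc h' ih =>
    rw [ih]
    simpa [blk] using h'

theorem nval_lt (hl : ∀ j, leaf j < g.K) (hf : ∀ j a b, f j a b < g.K) :
    ∀ h j, nval leaf f h j < g.K := by
  intro h j
  cases h with
  | zero => exact hl j
  | succ h => exact hf _ _ _

theorem app_V (hg : g.OK) {T v : ℕ} (hv : v < g.K) {z z' : Z} (hz : g.V z)
    (h : app g tst T v z = some z') : g.V z' := by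
  unfold app at h
  split_ifs at h with h1 h2 h3
  · simp only [Option.some.injEq] at h; rw [← h]; exact hz
  · simp only [Option.some.injEq] at h; rw [← h]; exact hg.hd_V v hv z hz
  · exact hg.un_V v hv z z' hz h

theorem update_V {C : Fin 3 → Z} (hC : ∀ k, g.V (C k)) {i : Fin 3} {z : Z} (hz : g.V z) :
    ∀ k, g.V (Function.update C i z k) := by
  intro k
  by_cases h : k = i
  · subst h; rw [Function.update_self]; exact hz
  · rw [Function.update_of_ne h]; exact hC k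

variable (hCHS : GoalCHS) (hALG : GoalALG) (hg : g.OK) (hl : ∀ j, leaf j < g.K)
  (hf : ∀ j a b, f j a b < g.K)

include hCHS hALG hg hl hf

theorem vis {h j T : ℕ} {i : Fin 3} {X Y : Fin 3 → Z} (hX : ∀ k, g.V (X k))
    (hc : Ch (opR g tst leaf f h j T i) g.K (5 ^ h) X Y) :
    ∃ z, app g tst T (nval leaf f h j) (X i) = some z ∧ Y = Function.update X i z :=
  (hALG hCHS g hg tst leaf f hl hf h j T i X Y hX).1 hc

theorem vis_V {h j T : ℕ} {i : Fin 3} {X Y : Fin 3 → Z} (hX : ∀ k, g.V (X k))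
    (hc : Ch (opR g tst leaf f h j T i) g.K (5 ^ h) X Y) : ∀ k, g.V (Y k) := by
  obtain ⟨z, hz, rfl⟩ := vis hCHS hALG hg hl hf hX hc
  exact update_V hX (app_V hg (nval_lt hl hf h j) (hX i) hz)

theorem vis_det {h j T : ℕ} {i : Fin 3} {X Y Y' : Fin 3 → Z} (hX : ∀ k, g.V (X k))
    (hc : Ch (opR g tst leaf f h j T i) g.K (5 ^ h) X Y)
    (hc' : Ch (opR g tst leaf f h j T i) g.K (5 ^ h) X Y') : Y = Y' := by
  obtain ⟨z, hz, rfl⟩ := vis hCHS hALG hg hl hf hX hc
  obtain ⟨z', hz', rfl⟩ := vis hCHS hALG hg hl hf hX hc'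
  rw [hz] at hz'
  simp only [Option.some.injEq] at hz'
  rw [hz']

/-- The guesses are the values of the children. -/
theorem guess_eq {h j T : ℕ} {i : Fin 3} {C X1 X2 E X4 X5 : Fin 3 → Z} {a b : ℕ}
    (ha : a < g.K) (hb : b < g.K) (hC : ∀ k, g.V (C k))
    (h0 : Ch (opR g tst leaf f h (2 * j) 1 (i + 1)) g.K (5 ^ h) C X1)
    (h1 : Ch (opR g tst leaf f h (2 * j + 1) 1 (i + 2)) g.K (5 ^ h) X1 X2)
    (h2 : guess g tst (f j) T i a b X2 = some E)
    (h3 : Ch (opR g tst leaf f h (2 * j) 2 (i + 1)) g.K (5 ^ h) E X4)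
    (h4 : Ch (opR g tst leaf f h (2 * j + 1) 2 (i + 2)) g.K (5 ^ h) X4 X5) :
    a = nval leaf f h (2 * j) ∧ b = nval leaf f h (2 * j + 1) ∧ ∀ k, g.V (E k) := by
  have hi1 : i + 1 ≠ i := by fin_cases i <;> decide
  have hi2 : i + 2 ≠ i := by fin_cases i <;> decide
  have hi3 : i + 2 ≠ i + 1 := by fin_cases i <;> decide
  have hX1 := vis_V hCHS hALG hg hl hf hC h0
  have hX2 := vis_V hCHS hALG hg hl hf hX1 h1
  obtain ⟨z0, hz0, e0⟩ := vis hCHS hALG hg hl hf hC h0
  obtain ⟨z1, hz1, e1⟩ := vis hCHS hALG hg hl hf hX1 h1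
  simp only [app, if_neg (show ¬ (1 = 0) by omega), if_true, Option.some.injEq] at hz0 hz1
  have hx1 : X2 (i + 1) = g.hd (nval leaf f h (2 * j)) (C (i + 1)) := by
    rw [e1, Function.update_of_ne hi3.symm, e0, Function.update_self, hz0]
  have hx2 : X2 (i + 2) = g.hd (nval leaf f h (2 * j + 1)) (C (i + 2)) := by
    rw [e1, Function.update_self, ← hz1, e0, Function.update_of_ne hi3]
  obtain ⟨z, hz, hE⟩ : ∃ z, app g tst T (f j a b) (X2 i) = some z ∧
      Function.update (Function.update (Function.update X2 i z) (i + 1) (g.sh a (X2 (i + 1))))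
        (i + 2) (g.sh b (X2 (i + 2))) = E := by
    simpa only [guess, Option.map_eq_some_iff] using h2
  have hEV : ∀ k, g.V (E k) := by
    rw [← hE]
    exact update_V (update_V (update_V hX2 (app_V hg (hf _ _ _) (hX2 i) hz))
      (hg.sh_V a ha _ (hX2 _))) (hg.sh_V b hb _ (hX2 _))
  have hE1 : E (i + 1) = g.sh a (g.hd (nval leaf f h (2 * j)) (C (i + 1))) := by
    rw [← hE, Function.update_of_ne hi3.symm, Function.update_self, hx1]
  have hE2 : E (i + 2) = g.sh b (g.hd (nval leaf f h (2 * j + 1)) (C (i + 2))) := by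
    rw [← hE, Function.update_self, hx2]
  obtain ⟨z3, hz3, e3⟩ := vis hCHS hALG hg hl hf hEV h3
  have hX4 := vis_V hCHS hALG hg hl hf hEV h3
  obtain ⟨z4, hz4, e4⟩ := vis hCHS hALG hg hl hf hX4 h4
  simp only [app, if_neg (show ¬ (2 = 0) by omega), if_neg (show ¬ (2 = 1) by omega)]
    at hz3 hz4
  rw [hE1] at hz3
  rw [e3, Function.update_of_ne hi3, hE2] at hz4
  refine ⟨?_, ?_, hEV⟩
  · exact hg.sound _ (nval_lt hl hf h (2 * j)) a ha _ (hC _) (by rw [hz3]; rfl)
  · exact hg.sound _ (nval_lt hl hf h (2 * j + 1)) b hb _ (hC _) (by rw [hz4]; rfl)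

/-- Two complete families of blocks with the same start agree. -/
theorem fam {h j T : ℕ} {i : Fin 3} {Xs Ys : ℕ → Fin 3 → Z} (hC : ∀ k, g.V (Xs 0 k))
    (h0 : Xs 0 = Ys 0)
    (hx : ∀ l < 5, Ch (blk g tst leaf f h j T i l) g.K (5 ^ h) (Xs l) (Xs (l + 1)))
    (hy : ∀ l < 5, Ch (blk g tst leaf f h j T i l) g.K (5 ^ h) (Ys l) (Ys (l + 1))) :
    ∀ l < 5, Xs l = Ys l ∧ ∀ k, g.V (Xs l k) := by
  obtain ⟨n, hn⟩ : ∃ n, 5 ^ h = n + 1 := Nat.exists_eq_succ_of_ne_zero (by positivity)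
  have hC' : ∀ k, g.V (Ys 0 k) := by rw [← h0]; exact hC
  have x0 : Ch (opR g tst leaf f h (2 * j) 1 (i + 1)) g.K (5 ^ h) (Xs 0) (Xs 1) := hx 0 (by omega)
  have y0 : Ch (opR g tst leaf f h (2 * j) 1 (i + 1)) g.K (5 ^ h) (Ys 0) (Ys 1) := hy 0 (by omega)
  have x1 : Ch (opR g tst leaf f h (2 * j + 1) 1 (i + 2)) g.K (5 ^ h) (Xs 1) (Xs 2) :=
    hx 1 (by omega)
  have y1 : Ch (opR g tst leaf f h (2 * j + 1) 1 (i + 2)) g.K (5 ^ h) (Ys 1) (Ys 2) :=
    hy 1 (by omega)
  have x3 : Ch (opR g tst leaf f h (2 * j) 2 (i + 1)) g.K (5 ^ h) (Xs 3) (Xs 4) := hx 3 (by omega)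
  have y3 : Ch (opR g tst leaf f h (2 * j) 2 (i + 1)) g.K (5 ^ h) (Ys 3) (Ys 4) := hy 3 (by omega)
  have x4 : Ch (opR g tst leaf f h (2 * j + 1) 2 (i + 2)) g.K (5 ^ h) (Xs 4) (Xs 5) :=
    hx 4 (by omega)
  have y4 : Ch (opR g tst leaf f h (2 * j + 1) 2 (i + 2)) g.K (5 ^ h) (Ys 4) (Ys 5) :=
    hy 4 (by omega)
  have x2 := hx 2 (by omega)
  have y2 := hy 2 (by omega)
  rw [hn] at x2 y2
  obtain ⟨a, ha, b, hb, hab⟩ := blk2_head x2
  obtain ⟨a', ha', b', hb', hab'⟩ := blk2_head y2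
  obtain ⟨ea, eb, hV3⟩ := guess_eq hCHS hALG hg hl hf ha hb hC x0 x1 hab x3 x4
  obtain ⟨ea', eb', hV3'⟩ := guess_eq hCHS hALG hg hl hf ha' hb' hC' y0 y1 hab' y3 y4
  have hV1 := vis_V hCHS hALG hg hl hf hC x0
  have hV2 := vis_V hCHS hALG hg hl hf hV1 x1
  have hV4 := vis_V hCHS hALG hg hl hf hV3 x3
  have e1 : Xs 1 = Ys 1 := by
    rw [← h0] at y0
    exact vis_det hCHS hALG hg hl hf hC x0 y0
  have e2 : Xs 2 = Ys 2 := by
    rw [← e1] at y1
    exact vis_det hCHS hALG hg hl hf hV1 x1 y1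
  have e3 : Xs 3 = Ys 3 := by
    rw [ea, eb, e2] at hab
    rw [ea', eb', hab] at hab'
    exact Option.some.inj hab'
  have e4 : Xs 4 = Ys 4 := by
    rw [← e3] at y3
    exact vis_det hCHS hALG hg hl hf hV3 x3 y3
  intro l hl
  rcases (show l = 0 ∨ l = 1 ∨ l = 2 ∨ l = 3 ∨ l = 4 by omega) with rfl | rfl | rfl | rfl | rfl
  · exact ⟨h0, hC⟩
  · exact ⟨e1, hV1⟩
  · exact ⟨e2, hV2⟩
  · exact ⟨e3, hV3⟩
  · exact ⟨e4, hV4⟩

theorem unq : ∀ (h j T : ℕ) (i : Fin 3) (C D D' E E' F F' : Fin 3 → Z) (t a b a' b' : ℕ),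
    t < 5 ^ h → (∀ k, g.V (C k)) → a < g.K → b < g.K → a' < g.K → b' < g.K →
    Ch (opR g tst leaf f h j T i) g.K t C D → opR g tst leaf f h j T i t a b D = some E →
    Ch (fun τ => opR g tst leaf f h j T i (t + 1 + τ)) g.K (5 ^ h - (t + 1)) E F →
    Ch (opR g tst leaf f h j T i) g.K t C D' → opR g tst leaf f h j T i t a' b' D' = some E' →
    Ch (fun τ => opR g tst leaf f h j T i (t + 1 + τ)) g.K (5 ^ h - (t + 1)) E' F' →
    D = D' ∧ E = E' ∧ (isG h t → a = a' ∧ b = b') := by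
  intro h
  induction h with
  | zero =>
    intro j T i C D D' E E' F F' t a b a' b' ht hC ha hb ha' hb' h1 h2 h3 h1' h2' h3'
    have ht0 : t = 0 := by simpa using ht
    subst ht0
    have e1 := ch_zero h1
    have e1' := ch_zero h1'
    subst e1
    subst e1'
    refine ⟨rfl, ?_, fun h => absurd h id⟩
    rw [opR] at h2 h2'
    rw [h2] at h2'
    exact Option.some.inj h2'
  | succ h ih =>
    intro j T i C D D' E E' F F' t a b a' b' ht hC ha hb ha' hb' h1 h2 h3 h1' h2' h3'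
    have h5 : 0 < 5 ^ h := Nat.pos_of_ne_zero (by positivity)
    obtain ⟨r, t', ht', hr, rfl⟩ : ∃ r t', t' < 5 ^ h ∧ r < 5 ∧ t = r * 5 ^ h + t' := by
      refine ⟨t / 5 ^ h, t % 5 ^ h, Nat.mod_lt _ h5, ?_, ?_⟩
      · rw [Nat.div_lt_iff_lt_mul h5, Nat.mul_comm, ← Nat.pow_succ]
        exact ht
      · rw [Nat.mul_comm]; exact (Nat.div_add_mod t (5 ^ h)).symm
    have h55 : 5 ^ (h + 1) = 5 * 5 ^ h := by rw [Nat.pow_succ, Nat.mul_comm]
    rw [h55] at h3 h3'
    obtain ⟨Xs, hx0, hx, hx1, hx2, hx3⟩ := mid hCHS (opR_blk g tst leaf f h j T i) hr ht' ha hb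
      h1 h2 h3
    obtain ⟨Ys, hy0, hy, hy1, hy2, hy3⟩ := mid hCHS (opR_blk g tst leaf f h j T i) hr ht' ha' hb'
      h1' h2' h3'
    have hC0 : ∀ k, g.V (Xs 0 k) := by rw [hx0]; exact hC
    have hfam := fam hCHS hALG hg hl hf hC0 (hx0.trans hy0.symm) hx hy
    obtain ⟨er, hVr⟩ := hfam r hr
    have hdiv : (r * 5 ^ h + t') / 5 ^ h = r := by
      rw [Nat.add_comm, Nat.add_mul_div_right _ _ h5, Nat.div_eq_of_lt ht', Nat.zero_add]
    have hmod : (r * 5 ^ h + t') % 5 ^ h = t' := by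
      rw [Nat.add_comm, Nat.add_mul_mod_self_right, Nat.mod_eq_of_lt ht']
    have hisG : isG (h + 1) (r * 5 ^ h + t') ↔ (r = 2 ∧ t' = 0) ∨ (r ≠ 2 ∧ isG h t') := by
      rw [isG, hdiv, hmod]
    rw [← er] at hy1
    by_cases hr2 : r = 2
    · subst hr2
      have x0 : Ch (opR g tst leaf f h (2 * j) 1 (i + 1)) g.K (5 ^ h) (Xs 0) (Xs 1) :=
        hx 0 (by omega)
      have x1 : Ch (opR g tst leaf f h (2 * j + 1) 1 (i + 2)) g.K (5 ^ h) (Xs 1) (Xs 2) :=
        hx 1 (by omega)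
      have x3 : Ch (opR g tst leaf f h (2 * j) 2 (i + 1)) g.K (5 ^ h) (Xs 3) (Xs 4) :=
        hx 3 (by omega)
      have x4 : Ch (opR g tst leaf f h (2 * j + 1) 2 (i + 2)) g.K (5 ^ h) (Xs 4) (Xs 5) :=
        hx 4 (by omega)
      have e3 := (hfam 3 (by omega)).1
      have eE : E = Xs 3 := blk2_tail hx3
      have eE' : E' = Xs 3 := (blk2_tail hy3).trans e3.symm
      rcases Nat.eq_zero_or_pos t' with h0 | h0
      · subst h0
        have d1 := ch_zero hx1
        have d2 := ch_zero hy1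
        have g1 : guess g tst (f j) T i a b (Xs 2) = some (Xs 3) := by
          rw [← eE, ← hx2, ← d1]; rfl
        have g2 : guess g tst (f j) T i a' b' (Xs 2) = some (Xs 3) := by
          rw [← eE', ← hy2, ← d2]; rfl
        obtain ⟨p1, p2, -⟩ := guess_eq hCHS hALG hg hl hf ha hb hC0 x0 x1 g1 x3 x4
        obtain ⟨p1', p2', -⟩ := guess_eq hCHS hALG hg hl hf ha' hb' hC0 x0 x1 g2 x3 x4
        exact ⟨d1.symm.trans d2, eE.trans eE'.symm,
          fun _ => ⟨p1.trans p1'.symm, p2.trans p2'.symm⟩⟩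
      · have q1 : D = E := by
          have : blk g tst leaf f h j T i 2 t' a b D = some D := by
            simp [blk, Nat.pos_iff_ne_zero.1 h0]
          rw [this] at hx2
          exact Option.some.inj hx2
        have q2 : D' = E' := by
          have : blk g tst leaf f h j T i 2 t' a' b' D' = some D' := by
            simp [blk, Nat.pos_iff_ne_zero.1 h0]
          rw [this] at hy2
          exact Option.some.inj hy2
        refine ⟨by rw [q1, q2, eE, eE'], by rw [eE, eE'], fun hG => ?_⟩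
        rcases hisG.1 hG with hG | hG
        · omega
        · exact absurd rfl hG.1
    · have key : ∀ (jj TT : ℕ) (ii : Fin 3),
          blk g tst leaf f h j T i r = opR g tst leaf f h jj TT ii →
          D = D' ∧ E = E' ∧ (isG (h + 1) (r * 5 ^ h + t') → a = a' ∧ b = b') := by
        intro jj TT ii hb1
        rw [hb1] at hx1 hx2 hx3 hy1 hy2 hy3
        obtain ⟨p1, p2, p3⟩ := ih jj TT ii (Xs r) D D' E E' (Xs (r + 1)) (Ys (r + 1)) t' a b a' b'
          ht' hVr ha hb ha' hb' hx1 hx2 hx3 hy1 hy2 hy3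
        refine ⟨p1, p2, fun hG => p3 ?_⟩
        rcases hisG.1 hG with hG | hG
        · exact absurd hG.1 hr2
        · exact hG.2
      rcases (show r = 0 ∨ r = 1 ∨ r = 3 ∨ r = 4 by omega) with rfl | rfl | rfl | rfl
      · exact key _ _ _ rfl
      · exact key _ _ _ rfl
      · exact key _ _ _ rfl
      · exact key _ _ _ rfl

end main

theorem gUNQ : GoalUNQ := by
  intro hCHS hALG Z g hg tst leaf f hl hf
  exact unq hCHS hALG hg hl hf

end Pool.Agent.Helper90.TE
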